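import Mathlib

/-!
# Small symplectic diffeomorphisms are joined to the identity

`E` is a Banach space with a bilinear form `om`. A smooth map `θ` of `E` preserving `om`, equal to the
identity off a closed ball and with `‖Dθ - 1‖ ≤ 1/2` is joined to the identity by a smooth path of such
maps (linear interpolation of the midpoint generating function).
-/

set_option autoImplicit false

open Set Filter Topology Metric Function
open scoped ContDiff NNReal

noncomputable section

namespace Pool.Agent.X167.Cayley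

variable {E : Type*} [NormedAddCommGroup E] [NormedSpace ℝ E] [CompleteSpace E]

omit [CompleteSpace E] in
/-- `w ↦ w - g(w)` for a contraction `g`. -/
theorem approx_of_lip {g : E → E} {c : ℝ≥0} (hg : LipschitzWith c g) :
    ApproximatesLinearOn (fun w => w - g w)
      ((ContinuousLinearEquiv.refl ℝ E : E ≃L[ℝ] E) : E →L[ℝ] E) univ c := by
  intro x _ y _
  have h := hg.dist_le_mul x y
  rw [dist_eq_norm, dist_eq_norm] at h
  have e : x - g x - (y - g y) - ((ContinuousLinearEquiv.refl ℝ E : E ≃L[ℝ] E) : E →L[ℝ] E) (x - y)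
      = -(g x - g y) := by
    simp only [ContinuousLinearEquiv.coe_refl, ContinuousLinearMap.coe_id', id_eq]
    abel
  show ‖x - g x - (y - g y) - ((ContinuousLinearEquiv.refl ℝ E : E ≃L[ℝ] E) : E →L[ℝ] E) (x - y)‖ ≤ _
  rw [e, norm_neg]
  exact h

/-- The homeomorphism `w ↦ w - g w` for a contraction `g`. -/
def homeo {g : E → E} {c : ℝ≥0} (hg : LipschitzWith c g) (hc : c < 1) : E ≃ₜ E :=
  (approx_of_lip hg).toHomeomorph _ (by
    rcases subsingleton_or_nontrivial E with h | h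
    · exact Or.inl h
    · right
      have : ‖((ContinuousLinearEquiv.refl ℝ E).symm : E →L[ℝ] E)‖₊ = 1 := by
        have : ((ContinuousLinearEquiv.refl ℝ E).symm : E →L[ℝ] E) = ContinuousLinearMap.id ℝ E := rfl
        rw [this]
        exact NNReal.eq ContinuousLinearMap.norm_id
      rw [this, inv_one]
      exact hc)

@[simp] theorem homeo_apply {g : E → E} {c : ℝ≥0} (hg : LipschitzWith c g) (hc : c < 1) (w : E) :
    homeo hg hc w = w - g w := rfl

theorem homeo_symm_lip {g : E → E} {c : ℝ≥0} (hg : LipschitzWith c g) (hc : c < 1) :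
    LipschitzWith (1 - c)⁻¹ (homeo hg hc).symm := by
  refine LipschitzWith.of_dist_le_mul fun x y => ?_
  set a := (homeo hg hc).symm x with ha
  set b := (homeo hg hc).symm y with hb
  have hx : x = a - g a := by rw [← homeo_apply hg hc, ha, Homeomorph.apply_symm_apply]
  have hy : y = b - g b := by rw [← homeo_apply hg hc, hb, Homeomorph.apply_symm_apply]
  have h := hg.dist_le_mul a b
  rw [dist_eq_norm, dist_eq_norm] at h
  rw [dist_eq_norm, dist_eq_norm]
  have h1 : ‖a - b‖ ≤ ‖x - y‖ + ‖g a - g b‖ := by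
    have : a - b = (x - y) + (g a - g b) := by rw [hx, hy]; abel
    rw [this]
    exact norm_add_le _ _
  have hc' : (0 : ℝ) < 1 - c := by
    have : (c : ℝ) < 1 := by exact_mod_cast hc
    linarith
  have h2 : ((1 - c : ℝ≥0) : ℝ) = 1 - (c : ℝ) := by
    rw [NNReal.coe_sub hc.le, NNReal.coe_one]
  rw [NNReal.coe_inv, h2, inv_mul_eq_div, le_div_iff₀ hc']
  linarith

/-- The derivative `1 - T` as an equivalence. -/
def oneSubEquiv (T : E →L[ℝ] E) (h : ‖T‖ < 1) : E ≃L[ℝ] E :=
  ContinuousLinearEquiv.unitsEquiv ℝ E (Units.oneSub T h)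

theorem oneSubEquiv_coe (T : E →L[ℝ] E) (h : ‖T‖ < 1) :
    ((oneSubEquiv T h : E ≃L[ℝ] E) : E →L[ℝ] E) = ContinuousLinearMap.id ℝ E - T := by
  ext x
  simp [oneSubEquiv]

theorem homeo_symm_smooth {g : E → E} {c : ℝ≥0} (hg : LipschitzWith c g) (hc : c < 1)
    (hs : ContDiff ℝ ∞ g) : ContDiff ℝ ∞ (homeo hg hc).symm := by
  have hn : ∀ x, ‖fderiv ℝ g x‖ < 1 := fun x =>
    (norm_fderiv_le_of_lipschitz ℝ hg).trans_lt (by exact_mod_cast hc)
  refine Homeomorph.contDiff_symm (homeo hg hc) (f₀' := fun x => oneSubEquiv (fderiv ℝ g x) (hn x))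
    (fun x => ?_) ?_
  · rw [oneSubEquiv_coe]
    exact (hasFDerivAt_id x).sub (hs.differentiable (by simp) x).hasFDerivAt
  · exact contDiff_id.sub hs

/-- Joint smoothness of the inverse of `w ↦ w - s(t) • V w`. -/
theorem param_inverse {V : E → E} {s : ℝ → ℝ} {c : ℝ≥0} (hc : c < 1) (hV : ContDiff ℝ ∞ V)
    (hs : ContDiff ℝ ∞ s) (hl : ∀ t, LipschitzWith c (fun w => s t • V w)) :
    ContDiff ℝ ∞ (fun p : ℝ × E => (homeo (hl p.1) hc).symm p.2) := by
  -- the map `(t, w) ↦ (t, w - s(t) V(w))`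
  let A : ℝ × E → ℝ × E := fun p => (p.1, p.2 - s p.1 • V p.2)
  let B : ℝ × E → ℝ × E := fun p => (p.1, (homeo (hl p.1) hc).symm p.2)
  have hA : ContDiff ℝ ∞ A := by
    refine contDiff_fst.prodMk (contDiff_snd.sub ?_)
    exact (hs.comp contDiff_fst).smul (hV.comp contDiff_snd)
  have hAB : ∀ p, A (B p) = p := by
    rintro ⟨t, x⟩
    show (t, (homeo (hl t) hc).symm x - s t • V ((homeo (hl t) hc).symm x)) = (t, x)
    have : homeo (hl t) hc ((homeo (hl t) hc).symm x) = x := Homeomorph.apply_symm_apply _ _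
    rw [homeo_apply] at this
    rw [this]
  have hBA : ∀ p, B (A p) = p := by
    rintro ⟨t, w⟩
    show (t, (homeo (hl t) hc).symm (w - s t • V w)) = (t, w)
    have : (homeo (hl t) hc).symm (homeo (hl t) hc w) = w := Homeomorph.symm_apply_apply _ _
    rw [homeo_apply] at this
    rw [this]
  have hn : ∀ p : ℝ × E, ‖s p.1 • fderiv ℝ V p.2‖ < 1 := by
    intro p
    have h1 : fderiv ℝ (fun w => s p.1 • V w) p.2 = s p.1 • fderiv ℝ V p.2 :=
      fderiv_fun_const_smul (hV.differentiable (by simp) p.2) _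
    rw [← h1]
    exact (norm_fderiv_le_of_lipschitz ℝ (hl p.1)).trans_lt (by exact_mod_cast hc)
  let A' : ℝ × E → (ℝ × E) ≃L[ℝ] (ℝ × E) := fun p =>
    ContinuousLinearEquiv.skewProd (ContinuousLinearEquiv.refl ℝ ℝ)
      (oneSubEquiv (s p.1 • fderiv ℝ V p.2) (hn p))
      (-((ContinuousLinearMap.id ℝ ℝ).smulRight (deriv s p.1 • V p.2)))
  have hA' : ∀ p, HasFDerivAt A ((A' p : (ℝ × E) ≃L[ℝ] (ℝ × E)) : (ℝ × E) →L[ℝ] (ℝ × E)) p := by
    rintro ⟨t, w⟩
    have h1 : HasFDerivAt (fun p : ℝ × E => s p.1) ((deriv s t) • ContinuousLinearMap.fst ℝ ℝ E)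
        (t, w) := by
      have h2 : HasDerivAt s (deriv s t) t := (hs.differentiable (by simp) t).hasDerivAt
      have h3 : HasFDerivAt (fun p : ℝ × E => p.1) (ContinuousLinearMap.fst ℝ ℝ E) (t, w) :=
        hasFDerivAt_fst
      exact h2.comp_hasFDerivAt (t, w) h3
    have h2 : HasFDerivAt (fun p : ℝ × E => V p.2)
        ((fderiv ℝ V w).comp (ContinuousLinearMap.snd ℝ ℝ E)) (t, w) := by
      have h3 : HasFDerivAt V (fderiv ℝ V w) w := (hV.differentiable (by simp) w).hasFDerivAt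
      exact h3.comp (t, w) hasFDerivAt_snd
    have h3 := (hasFDerivAt_fst (𝕜 := ℝ) (E := ℝ) (F := E) (p := (t, w))).prodMk
      ((hasFDerivAt_snd (𝕜 := ℝ) (E := ℝ) (F := E) (p := (t, w))).sub (h1.smul h2))
    refine h3.congr_fderiv ?_
    ext v
    · simp [A', ContinuousLinearEquiv.skewProd]
    · simp [A', ContinuousLinearEquiv.skewProd]
    · simp [A', ContinuousLinearEquiv.skewProd, oneSubEquiv]
    · simp [A', ContinuousLinearEquiv.skewProd, oneSubEquiv]
  have hopen : IsOpenMap A := isOpenMap_of_hasStrictFDerivAt_equiv (f' := A')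
    fun p => hA.contDiffAt.hasStrictFDerivAt' (hA' p) (by simp)
  let Ah : (ℝ × E) ≃ₜ (ℝ × E) :=
    Equiv.toHomeomorphOfContinuousOpen ⟨A, B, hBA, hAB⟩ hA.continuous hopen
  have hB : ContDiff ℝ ∞ Ah.symm := Homeomorph.contDiff_symm Ah hA' hA
  have : (fun p : ℝ × E => (homeo (hl p.1) hc).symm p.2) = fun p => (Ah.symm p).2 := rfl
  rw [this]
  exact contDiff_snd.comp hB

/-- the interpolation parameter: a smooth function with values in `[0, 1/2]` -/
def par (t : ℝ) : ℝ := Real.smoothTransition t / 2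

theorem par_smooth : ContDiff ℝ ∞ par := Real.smoothTransition.contDiff.div_const 2

theorem par_zero : par 0 = 0 := by simp [par]

theorem par_one : par 1 = 1 / 2 := by simp [par]

theorem par_nonneg (t : ℝ) : 0 ≤ par t := by
  have := Real.smoothTransition.nonneg t
  unfold par; positivity

theorem par_le (t : ℝ) : par t ≤ 1 / 2 := by
  have := Real.smoothTransition.le_one t
  unfold par; linarith

theorem nnr14 : (1 / 4 : ℝ≥0) < 1 := by
  rw [← NNReal.coe_lt_coe]; norm_num

theorem nnr13 : (1 / 3 : ℝ≥0) < 1 := by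
  rw [← NNReal.coe_lt_coe]; norm_num

/-- The displacement as a function of the midpoint. -/
theorem exists_V (om : E →ₗ[ℝ] E →ₗ[ℝ] ℝ) (θ : E → E) (hθ : ContDiff ℝ ∞ θ)
    (hinj : Injective θ)
    (hom : ∀ x u v, om (fderiv ℝ θ x u) (fderiv ℝ θ x v) = om u v)
    (h12 : ∀ x, ‖fderiv ℝ θ x - ContinuousLinearMap.id ℝ E‖ ≤ 1 / 2) (R : ℝ)
    (hR : ∀ x, x ∉ closedBall (0 : E) R → θ x = x) :
    ∃ V : E → E, ContDiff ℝ ∞ V ∧ LipschitzWith (2 / 3) V ∧
      (∀ x, V (x + (1 / 2 : ℝ) • (θ x - x)) = θ x - x) ∧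
      (∀ w z z', om (fderiv ℝ V w z) z' + om z (fderiv ℝ V w z') = 0) ∧
      ∀ w, w ∉ closedBall (0 : E) R → V w = 0 := by
  -- the displacement
  obtain ⟨δ, hδ⟩ : ∃ δ : E → E, ∀ x, δ x = θ x - x := ⟨_, fun _ => rfl⟩
  have hδ' : δ = fun x => θ x - x := funext hδ
  have hδs : ContDiff ℝ ∞ δ := by rw [hδ']; exact hθ.sub contDiff_id
  have hδd : ∀ x, HasFDerivAt δ (fderiv ℝ θ x - ContinuousLinearMap.id ℝ E) x := by
    intro x
    rw [hδ']
    exact ((hθ.differentiable (by simp) x).hasFDerivAt).sub (hasFDerivAt_id x)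
  have hδl : LipschitzWith (1 / 2) δ := by
    refine lipschitzWith_of_nnnorm_fderiv_le (𝕜 := ℝ) (hδs.differentiable (by simp)) fun x => ?_
    rw [(hδd x).fderiv]
    have := h12 x
    rw [← NNReal.coe_le_coe, coe_nnnorm]
    simpa using this
  -- the midpoint map
  have hgl : LipschitzWith (1 / 4) (fun x => (-(1 / 2 : ℝ)) • δ x) := by
    have h1 := (lipschitzWith_smul (β := E) (-(1 / 2 : ℝ))).comp hδl
    refine h1.weaken ?_
    rw [← NNReal.coe_le_coe]
    simp
    norm_num
  have hgs : ContDiff ℝ ∞ (fun x => (-(1 / 2 : ℝ)) • δ x) := contDiff_const.smul hδs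
  obtain ⟨m, hm, hms, hml⟩ : ∃ m : E ≃ₜ E, (∀ x, m x = x + (1 / 2 : ℝ) • δ x) ∧
      ContDiff ℝ ∞ m.symm ∧ LipschitzWith (4 / 3) m.symm := by
    refine ⟨homeo hgl nnr14, ?_, homeo_symm_smooth hgl nnr14 hgs, ?_⟩
    · intro x
      rw [homeo_apply, neg_smul, sub_neg_eq_add]
    · refine (homeo_symm_lip hgl nnr14).weaken ?_
      rw [← NNReal.coe_le_coe]
      have h34 : ((1 - 1 / 4 : ℝ≥0) : ℝ) = 3 / 4 := by
        rw [NNReal.coe_sub nnr14.le]; norm_num
      rw [NNReal.coe_inv, h34]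
      norm_num
  have hVd : ∀ w, HasFDerivAt (fun w => δ (m.symm w))
      ((fderiv ℝ θ (m.symm w) - ContinuousLinearMap.id ℝ E).comp (fderiv ℝ m.symm w)) w :=
    fun w => HasFDerivAt.comp w (hδd (m.symm w)) (hms.differentiable (by simp) w).hasFDerivAt
  refine ⟨fun w => δ (m.symm w), hδs.comp hms, ?_, ?_, ?_, ?_⟩
  · refine (hδl.comp hml).weaken ?_
    rw [← NNReal.coe_le_coe]
    rw [NNReal.coe_mul]
    norm_num
  · intro x
    show δ (m.symm (x + (1 / 2 : ℝ) • (θ x - x))) = _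
    rw [← hδ, ← hm, Homeomorph.symm_apply_apply]
  · intro w z z'
    -- preimages of `z`, `z'` under `Dm`
    have key : ∀ z : E, ∃ z0 : E, z = (1 / 2 : ℝ) • (z0 + fderiv ℝ θ (m.symm w) z0) ∧
        fderiv ℝ (fun w => δ (m.symm w)) w z = fderiv ℝ θ (m.symm w) z0 - z0 := by
      intro z
      have hD1 : HasFDerivAt m.symm (fderiv ℝ m.symm w) w :=
        (hms.differentiable (by simp) w).hasFDerivAt
      refine ⟨fderiv ℝ m.symm w z, ?_, ?_⟩
      · -- derivative of `m (m.symm w) = w`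
        have h3 : HasFDerivAt (fun w => m.symm w + (1 / 2 : ℝ) • δ (m.symm w))
            (fderiv ℝ m.symm w + (1 / 2 : ℝ) • ((fderiv ℝ θ (m.symm w) -
              ContinuousLinearMap.id ℝ E).comp (fderiv ℝ m.symm w))) w :=
          hD1.add ((hVd w).const_smul (1 / 2 : ℝ))
        have h4 : (fun w => m.symm w + (1 / 2 : ℝ) • δ (m.symm w)) = fun w => w := by
          funext w
          rw [← hm, Homeomorph.apply_symm_apply]
        rw [h4] at h3
        have h5 := h3.unique (hasFDerivAt_id w)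
        have h6 := DFunLike.congr_fun h5 z
        simp only [add_apply, smul_apply, ContinuousLinearMap.comp_apply, sub_apply,
          ContinuousLinearMap.id_apply] at h6
        conv_lhs => rw [← h6]
        module
      · rw [(hVd w).fderiv]
        simp
    obtain ⟨a, ha1, ha2⟩ := key z
    obtain ⟨b, hb1, hb2⟩ := key z'
    rw [ha2, hb2]
    conv_lhs => rw [ha1, hb1]
    have h := hom (m.symm w) a b
    simp only [map_sub, map_add, map_smul, LinearMap.sub_apply, LinearMap.add_apply,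
      LinearMap.smul_apply, smul_eq_mul, h]
    ring
  · have hmaps : ∀ x ∈ closedBall (0 : E) R, θ x ∈ closedBall (0 : E) R := by
      intro x hx
      by_contra h
      exact h (by rw [hinj (hR _ h)]; exact hx)
    intro w hw
    have h1 : m.symm w ∉ closedBall (0 : E) R := by
      intro h
      apply hw
      have h2 := hmaps _ h
      have h3 : w = (1 / 2 : ℝ) • m.symm w + (1 / 2 : ℝ) • θ (m.symm w) := by
        have h4 : m (m.symm w) = w := Homeomorph.apply_symm_apply _ _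
        rw [hm, hδ] at h4
        conv_lhs => rw [← h4]
        module
      rw [h3]
      exact convex_closedBall (0 : E) R h h2 (by norm_num) (by norm_num) (by norm_num)
    show δ (m.symm w) = 0
    rw [hδ, hR _ h1, sub_self]

/-- The path defined by a field `V` of infinitesimal symmetries of `om`. -/
theorem path_of_V (om : E →ₗ[ℝ] E →ₗ[ℝ] ℝ) (V : E → E) (hVs : ContDiff ℝ ∞ V)
    (hVl : LipschitzWith (2 / 3) V)
    (hN : ∀ w z z', om (fderiv ℝ V w z) z' + om z (fderiv ℝ V w z') = 0) (R : ℝ)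
    (hV0 : ∀ w, w ∉ closedBall (0 : E) R → V w = 0) :
    ∃ Θ : ℝ → E → E, ContDiff ℝ ∞ (fun p : ℝ × E => Θ p.1 p.2) ∧
      (∀ t, ∃ χ : E → E, ContDiff ℝ ∞ χ ∧ LeftInverse χ (Θ t) ∧ RightInverse χ (Θ t)) ∧
      (∀ t x u v, om (fderiv ℝ (Θ t) x u) (fderiv ℝ (Θ t) x v) = om u v) ∧
      (∀ t, ∀ x, x ∉ closedBall (0 : E) R → Θ t x = x) ∧
      (∀ x, Θ 0 x = x) ∧
      ∀ y, Θ 1 (y - (1 / 2 : ℝ) • V y) = y + (1 / 2 : ℝ) • V y := by
  -- the maps `w ↦ w ∓ s V w`
  have hal : ∀ t, LipschitzWith (1 / 3) (fun w => par t • V w) := by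
    intro t
    have h1 := (lipschitzWith_smul (β := E) (par t)).comp hVl
    refine h1.weaken ?_
    rw [← NNReal.coe_le_coe]
    have h2 : ‖par t‖ ≤ 1 / 2 := by
      rw [Real.norm_of_nonneg (par_nonneg t)]; exact par_le t
    rw [NNReal.coe_mul, coe_nnnorm]
    have h3 : ((2 / 3 : ℝ≥0) : ℝ) = 2 / 3 := by norm_num
    have h4 : ((1 / 3 : ℝ≥0) : ℝ) = 1 / 3 := by norm_num
    rw [h3, h4]
    linarith
  have hbl : ∀ t, LipschitzWith (1 / 3) (fun w => (-par t) • V w) := by
    intro t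
    have : (fun w => (-par t) • V w) = fun w => -(par t • V w) := by
      funext w; rw [neg_smul]
    rw [this]
    exact (hal t).neg
  obtain ⟨a, ha, has⟩ : ∃ a : ℝ → (E ≃ₜ E), (∀ t w, a t w = w - par t • V w) ∧
      ContDiff ℝ ∞ (fun p : ℝ × E => (a p.1).symm p.2) :=
    ⟨fun t => homeo (hal t) nnr13, fun t w => rfl, param_inverse nnr13 hVs par_smooth hal⟩
  obtain ⟨b, hb, hbs'⟩ : ∃ b : ℝ → (E ≃ₜ E), (∀ t w, b t w = w + par t • V w) ∧
      ∀ t, ContDiff ℝ ∞ (b t).symm :=
    ⟨fun t => homeo (hbl t) nnr13, fun t w => by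
      rw [homeo_apply, neg_smul, sub_neg_eq_add],
      fun t => homeo_symm_smooth (hbl t) nnr13 (contDiff_const.smul hVs)⟩
  have has' : ∀ t, ContDiff ℝ ∞ (a t).symm := fun t =>
    has.comp (contDiff_const.prodMk contDiff_id : ContDiff ℝ ∞ (fun x : E => (t, x)))
  have hinv : ∀ t x, (a t).symm x - par t • V ((a t).symm x) = x := fun t x => by
    rw [← ha, Homeomorph.apply_symm_apply]
  have hafix : ∀ t x, x ∉ closedBall (0 : E) R → (a t).symm x = x := by
    intro t x hx
    rw [Homeomorph.symm_apply_eq, ha, hV0 x hx, smul_zero, sub_zero]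
  refine ⟨fun t x => (a t).symm x + par t • V ((a t).symm x), ?_, ?_, ?_, ?_, ?_, ?_⟩
  · exact has.add (((par_smooth.comp contDiff_fst).smul (hVs.comp has)))
  · intro t
    refine ⟨fun x => (b t).symm x - par t • V ((b t).symm x),
      (hbs' t).sub (contDiff_const.smul (hVs.comp (hbs' t))), ?_, ?_⟩
    · intro x
      show (b t).symm ((a t).symm x + par t • V ((a t).symm x)) -
        par t • V ((b t).symm ((a t).symm x + par t • V ((a t).symm x))) = x
      rw [← hb, Homeomorph.symm_apply_apply, ← ha, Homeomorph.apply_symm_apply]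
    · intro x
      show (a t).symm ((b t).symm x - par t • V ((b t).symm x)) +
        par t • V ((a t).symm ((b t).symm x - par t • V ((b t).symm x))) = x
      rw [← ha, Homeomorph.symm_apply_apply, ← hb, Homeomorph.apply_symm_apply]
  · intro t x u v
    obtain ⟨D, hD1⟩ : ∃ D, HasFDerivAt (a t).symm D x :=
      ⟨_, ((has' t).differentiable (by simp) x).hasFDerivAt⟩
    obtain ⟨N, hNd⟩ : ∃ N, N = fderiv ℝ V ((a t).symm x) := ⟨_, rfl⟩
    have hD2 : HasFDerivAt V N ((a t).symm x) := by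
      rw [hNd]
      exact (hVs.differentiable (by simp) _).hasFDerivAt
    have hD3 : HasFDerivAt (fun x => par t • V ((a t).symm x)) (par t • N.comp D) x :=
      (HasFDerivAt.comp x hD2 hD1).const_smul (par t)
    have e1 : ∀ u, D u - par t • N (D u) = u := by
      intro u
      have h3 := hD1.sub hD3
      have h4 : (fun x => (a t).symm x - par t • V ((a t).symm x)) = fun x => x :=
        funext (hinv t)
      have h5 : HasFDerivAt (fun x : E => x) (D - par t • N.comp D) x := h4 ▸ h3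
      have h6 := DFunLike.congr_fun (h5.unique (hasFDerivAt_id x)) u
      simpa using h6
    have e2 : ∀ u, fderiv ℝ (fun x => (a t).symm x + par t • V ((a t).symm x)) x u =
        D u + par t • N (D u) := by
      intro u
      have h3 : HasFDerivAt (fun x => (a t).symm x + par t • V ((a t).symm x))
          (D + par t • N.comp D) x := hD1.add hD3
      rw [HasFDerivAt.fderiv h3]
      simp
    rw [e2, e2]
    conv_rhs => rw [← e1 u, ← e1 v]
    have h := hN ((a t).symm x) (D u) (D v)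
    rw [← hNd] at h
    simp only [map_sub, map_add, map_smul, LinearMap.sub_apply, LinearMap.add_apply,
      LinearMap.smul_apply, smul_eq_mul]
    linear_combination (2 * par t) * h
  · intro t x hx
    show (a t).symm x + par t • V ((a t).symm x) = x
    rw [hafix t x hx, hV0 x hx, smul_zero, add_zero]
  · intro x
    have h0 : (a 0).symm x = x := by
      rw [Homeomorph.symm_apply_eq, ha, par_zero, zero_smul, sub_zero]
    show (a 0).symm x + par 0 • V ((a 0).symm x) = x
    rw [par_zero, zero_smul, add_zero, h0]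
  · intro y
    have h0 : (a 1).symm (y - (1 / 2 : ℝ) • V y) = y := by
      rw [Homeomorph.symm_apply_eq, ha, par_one]
    show (a 1).symm (y - (1 / 2 : ℝ) • V y) +
      par 1 • V ((a 1).symm (y - (1 / 2 : ℝ) • V y)) = y + (1 / 2 : ℝ) • V y
    rw [h0, par_one]

/-- A smooth map preserving the bilinear form `om`, `C¹` close to the identity and equal to it off a
closed ball is joined to the identity by a smooth path of such diffeomorphisms. -/
theorem path_to_id (om : E →ₗ[ℝ] E →ₗ[ℝ] ℝ) (θ : E → E) (hθ : ContDiff ℝ ∞ θ)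
    (hinj : Injective θ)
    (hom : ∀ x u v, om (fderiv ℝ θ x u) (fderiv ℝ θ x v) = om u v)
    (h12 : ∀ x, ‖fderiv ℝ θ x - ContinuousLinearMap.id ℝ E‖ ≤ 1 / 2) (R : ℝ)
    (hR : ∀ x, x ∉ closedBall (0 : E) R → θ x = x) :
    ∃ Θ : ℝ → E → E, ContDiff ℝ ∞ (fun p : ℝ × E => Θ p.1 p.2) ∧
      (∀ t, ∃ χ : E → E, ContDiff ℝ ∞ χ ∧ LeftInverse χ (Θ t) ∧ RightInverse χ (Θ t)) ∧
      (∀ t x u v, om (fderiv ℝ (Θ t) x u) (fderiv ℝ (Θ t) x v) = om u v) ∧
      (∀ t, ∀ x, x ∉ closedBall (0 : E) R → Θ t x = x) ∧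
      (∀ x, Θ 0 x = x) ∧ ∀ x, Θ 1 x = θ x := by
  obtain ⟨V, h1, h2, h3, h4, h5⟩ := exists_V om θ hθ hinj hom h12 R hR
  obtain ⟨Θ, k1, k2, k3, k4, k5, k6⟩ := path_of_V om V h1 h2 h4 R h5
  refine ⟨Θ, k1, k2, k3, k4, k5, fun x => ?_⟩
  have h := k6 (x + (1 / 2 : ℝ) • (θ x - x))
  rw [h3] at h
  have e1 : x + (1 / 2 : ℝ) • (θ x - x) - (1 / 2 : ℝ) • (θ x - x) = x := by abel
  have e2 : x + (1 / 2 : ℝ) • (θ x - x) + (1 / 2 : ℝ) • (θ x - x) = θ x := by module
  rw [e1, e2] at h
  exact h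

end Pool.Agent.X167.Cayley
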